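import Pool.Agent.Helper92.Ru.GoalsV

/-! Packet PtSums (P15) of MP_d1d051_nt. -/

set_option autoImplicit false

open NumberField MvPolynomial

namespace Pool.Agent.Helper67.Ru

open Pool.Agent.Helper92.Ru Function

section

set_option linter.unusedSectionVars false

variable {k : Type} [Field k] [NumberField k] {L : Type} [Field L] [NumberField L] [Algebra k L]
  {n : ℕ}

lemma U_att (w : L → ℝ) (x : Fin (n + 1) → L) : ∃ j, w (x j) = ⨆ j, w (x j) :=
  exists_eq_ciSup_of_finite

lemma U_ge (w : L → ℝ) (x : Fin (n + 1) → L) (j : Fin (n + 1)) : w (x j) ≤ ⨆ j, w (x j) :=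
  le_ciSup (f := fun j => w (x j)) (Set.finite_range _).bddAbove j

lemma U_pos {x : Fin (n + 1) → L} (hx : x ≠ 0) (w : FinitePlace L) : 0 < ⨆ j, w (x j) := by
  obtain ⟨i, hi⟩ := Function.ne_iff.1 hx
  exact (FinitePlace.pos_iff.2 hi).trans_le (U_ge (fun y => w y) x i)

lemma U_supp {x : Fin (n + 1) → L} (hx : x ≠ 0) :
    (mulSupport fun w : FinitePlace L => ⨆ j, w (x j)).Finite := by
  have h1 : (⋃ j ∈ {j : Fin (n + 1) | x j ≠ 0},
      mulSupport fun w : FinitePlace L => w (x j)).Finite :=
    Set.Finite.biUnion (Set.toFinite _) fun j hj => FinitePlace.hasFiniteMulSupport hj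
  refine h1.subset ?_
  intro w hw
  by_contra hcon
  apply hw
  have h2 : ∀ j, x j ≠ 0 → w (x j) = 1 := by
    intro j hj
    by_contra h3
    exact hcon (Set.mem_biUnion (show j ∈ {j : Fin (n + 1) | x j ≠ 0} from hj) h3)
  obtain ⟨i, hi⟩ := Function.ne_iff.1 hx
  apply le_antisymm
  · refine ciSup_le fun j => ?_
    by_cases hj : x j = 0
    · rw [hj, map_zero]
      exact zero_le_one
    · exact (h2 j hj).le
  · exact (h2 i hi).ge.trans (U_ge (fun y => w y) x i)

/-- products over the infinite places, fibrewise -/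
lemma inf_prod {M : Type*} [CommMonoid M] (F : InfinitePlace L → M) :
    ∏ v : InfinitePlace k, ∏ w : AbI L v, F w.1 = ∏ w, F w := by
  rw [← (Equiv.sigmaFiberEquiv (fun w : InfinitePlace L => w.comap (algebraMap k L))).prod_comp F,
    Fintype.prod_sigma]
  rfl

lemma inf_sum {M : Type*} [AddCommMonoid M] (F : InfinitePlace L → M) :
    ∑ v : InfinitePlace k, ∑ w : AbI L v, F w.1 = ∑ w, F w := by
  rw [← (Equiv.sigmaFiberEquiv (fun w : InfinitePlace L => w.comap (algebraMap k L))).sum_comp F,
    Fintype.sum_sigma]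
  rfl

/-- finite products over the finite places, fibrewise -/
lemma fin_prod {M : Type*} [CommMonoid M] (below : FinitePlace L → FinitePlace k)
    (hab : ∀ v w, Above v w ↔ below w = v) (f : FinitePlace L → M) (hf : (mulSupport f).Finite) :
    ∏ᶠ v : FinitePlace k, ∏ᶠ (w : FinitePlace L) (_ : Above v w), f w = ∏ᶠ w, f w := by
  classical
  have h1 : ∀ v, ∏ᶠ (w : FinitePlace L) (_ : Above v w), f w =
      ∏ w ∈ hf.toFinset with below w = v, f w := by
    intro v
    have h2 := finprod_mem_eq_prod_filter f {w | Above v w} hf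
    have h3 : (hf.toFinset.filter fun w => w ∈ {w | Above v w}) =
        hf.toFinset.filter fun w => below w = v := by
      apply Finset.filter_congr
      intro w _
      exact hab v w
    rw [← h3]
    exact h2
  simp_rw [h1]
  rw [finprod_eq_prod_of_mulSupport_subset (s := hf.toFinset.image below), finprod_eq_prod f hf]
  · exact Finset.prod_fiberwise_of_maps_to (fun w hw => Finset.mem_image_of_mem below hw) f
  · intro v hv
    by_contra hcon
    apply hv
    refine Finset.prod_eq_one fun w hw => ?_
    exfalso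
    rw [Finset.mem_filter] at hw
    exact hcon (Finset.mem_coe.2 (Finset.mem_image.2 ⟨w, hw.1, hw.2⟩))

lemma fin_supp {M : Type*} [CommMonoid M] (below : FinitePlace L → FinitePlace k)
    (hab : ∀ v w, Above v w ↔ below w = v) (f : FinitePlace L → M) (hf : (mulSupport f).Finite) :
    (mulSupport fun v : FinitePlace k =>
      ∏ᶠ (w : FinitePlace L) (_ : Above v w), f w).Finite := by
  refine (hf.image below).subset ?_
  intro v hv
  by_contra hcon
  apply hv
  apply finprod_mem_eq_one_of_forall_eq_one (s := {w | Above v w})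
  intro w hw
  by_contra h1
  exact hcon ⟨w, h1, (hab v w).1 hw⟩

lemma XFin_pow (hP : PlPow) {x : Fin (n + 1) → L} (hx : x ≠ 0) (v : FinitePlace k) :
    ∃ J : ℤ, XFin x v = (qw v : ℝ) ^ J := by
  have hq : (qw v : ℝ) ≠ 0 := by
    have : 1 < qw v := HeightOneSpectrum.one_lt_absNorm _
    positivity
  unfold XFin
  apply finprod_mem_induction (s := {w : FinitePlace L | Above v w})
    (fun y => ∃ J : ℤ, y = (qw v : ℝ) ^ J)
  · exact ⟨0, by simp⟩
  · rintro _ _ ⟨a, rfl⟩ ⟨b, rfl⟩
    exact ⟨a + b, by rw [zpow_add₀ hq]⟩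
  · intro w hw
    obtain ⟨j, hj⟩ := U_att (fun y => w y) x
    have h0 : x j ≠ 0 := by
      have := U_pos hx w
      rw [← hj] at this
      exact FinitePlace.pos_iff.1 this
    obtain ⟨J, hJ⟩ := (hP k L v w hw).2 (x j) h0
    exact ⟨J, by rw [← hj, ← hJ]⟩

lemma XFin_z (hP : PlPow) {x : Fin (n + 1) → L} (hx : x ≠ 0) (v : FinitePlace k) :
    (qw v : ℝ) ^ (⌊Real.logb (qw v) (XFin x v)⌋ : ℤ) = XFin x v := by
  have h1 : 1 < qw v := HeightOneSpectrum.one_lt_absNorm _
  have hq : (1 : ℝ) < qw v := by exact_mod_cast h1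
  obtain ⟨J, hJ⟩ := XFin_pow hP hx v
  rw [hJ]
  have h2 : Real.logb (qw v) ((qw v : ℝ) ^ J) = J := by
    rw [← Real.rpow_intCast, Real.logb_rpow (by linarith) (by linarith)]
  rw [h2, Int.floor_intCast]

end

theorem ptSums : PlBelow → PlAbove → PlPow → GenLoc → PlNorm → PtSums := by
  intro hB hA hP _ _ k _ _ T n q d a L _ _ _ σ x hx
  classical
  have hbel : ∀ w : FinitePlace L, ∃! v : FinitePlace k, Above v w := hB k L
  choose below hbel1 hbel2 using hbel
  have hab : ∀ (v : FinitePlace k) (w : FinitePlace L), Above v w ↔ below w = v := by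
    intro v w
    constructor
    · intro h
      exact (hbel2 w v h).symm
    · rintro rfl
      exact hbel1 w
  have hAf : ∀ v : FinitePlace k, {w : FinitePlace L | Above v w}.Finite := fun v =>
    ((hA k L).1 v).1
  -- the height is the usual height
  have hH : (ptOf T a σ x).H = Height.mulHeight x := by
    rw [NumberField.mulHeight_eq hx]
    have e1 : ∀ w : FinitePlace k, (qw w : ℝ) ^ (ptOf T a σ x).z w =
        if w ∈ T then 1 else XFin x w := by
      intro w
      show (qw w : ℝ) ^ (if w ∈ T then (0 : ℤ) else ⌊Real.logb (qw w) (XFin x w)⌋) = _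
      split_ifs with h
      · simp
      · exact XFin_z hP hx w
    have e2 : ∏ v : SP k T, (ptOf T a σ x).X v =
        (∏ v : InfinitePlace k, XInf x v) * ∏ w ∈ T, XFin x w := by
      rw [Fintype.prod_sum_type]
      congr 1
      exact Finset.prod_coe_sort T (fun w => XFin x w)
    have hfs := fin_supp below hab (fun w : FinitePlace L => ⨆ j, w (x j)) (U_supp hx)
    have e3 : (∏ w ∈ T, XFin x w) * ∏ᶠ w : FinitePlace k, (if w ∈ T then 1 else XFin x w) =
        ∏ᶠ w : FinitePlace k, XFin x w := by
      have hs1 : ∏ᶠ w : FinitePlace k, XFin x w = ∏ w ∈ hfs.toFinset ∪ T, XFin x w := by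
        apply finprod_eq_prod_of_mulSupport_subset
        intro w hw
        simp only [Finset.coe_union, Set.Finite.coe_toFinset, Set.mem_union]
        exact Or.inl hw
      have hs2 : ∏ᶠ w : FinitePlace k, (if w ∈ T then 1 else XFin x w) =
          ∏ w ∈ hfs.toFinset ∪ T, (if w ∈ T then 1 else XFin x w) := by
        apply finprod_eq_prod_of_mulSupport_subset
        intro w hw
        simp only [Finset.coe_union, Set.Finite.coe_toFinset, Set.mem_union]
        by_cases hT : w ∈ T
        · exact Or.inr (Finset.mem_coe.2 hT)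
        · left
          intro h1
          apply hw
          simp only [hT, if_false]
          exact h1
      rw [hs1, hs2, ← Finset.prod_sdiff (f := fun w => if w ∈ T then (1 : ℝ) else XFin x w)
          (Finset.subset_union_right : T ⊆ hfs.toFinset ∪ T),
        ← Finset.prod_sdiff (f := fun w => XFin x w)
          (Finset.subset_union_right : T ⊆ hfs.toFinset ∪ T)]
      have e4 : ∏ w ∈ (hfs.toFinset ∪ T) \ T, (if w ∈ T then (1 : ℝ) else XFin x w) =
          ∏ w ∈ (hfs.toFinset ∪ T) \ T, XFin x w :=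
        Finset.prod_congr rfl fun w hw => if_neg (Finset.mem_sdiff.1 hw).2
      have e5 : ∏ w ∈ T, (if w ∈ T then (1 : ℝ) else XFin x w) = 1 :=
        Finset.prod_eq_one fun w hw => if_pos hw
      rw [e4, e5, mul_one, mul_comm]
    unfold Pt.H
    simp_rw [e1]
    rw [e2, mul_assoc, e3]
    congr 1
    · exact inf_prod (fun w : InfinitePlace L => (⨆ j, w (x j)) ^ w.mult)
    · exact fin_prod below hab (fun w : FinitePlace L => ⨆ j, w (x j)) (U_supp hx)
  refine ⟨?_, ?_, ?_⟩
  · -- total proximity
    unfold Pt.tot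
    rw [Fintype.sum_sum_type]
    congr 1
    · have e1 : ∀ v : InfinitePlace k, ∑ i, (ptOf T a σ x).lam (Sum.inl v) i =
          ∑ w : AbI L v, (w.1.mult : ℝ) * ∑ i, prI (a i) x w.1 := by
        intro v
        show ∑ i, ∑ w : AbI L v, (w.1.mult : ℝ) * prI (a i) x w.1 = _
        rw [Finset.sum_comm]
        exact Finset.sum_congr rfl fun w _ => (Finset.mul_sum _ _ _).symm
      simp_rw [e1]
      exact inf_sum (fun w : InfinitePlace L => (w.mult : ℝ) * ∑ i, prI (a i) x w)
    · have e1 : ∀ v : {w : FinitePlace k // w ∈ T}, ∑ i, (ptOf T a σ x).lam (Sum.inr v) i =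
          ∑ w ∈ (hAf v.1).toFinset, ∑ i, prF (a i) x w := by
        intro v
        show ∑ i, ∑ᶠ (w : FinitePlace L) (_ : Above v.1 w), prF (a i) x w = _
        rw [Finset.sum_comm]
        refine Finset.sum_congr rfl fun i _ => ?_
        exact finsum_mem_eq_finite_toFinset_sum (fun w => prF (a i) x w) (hAf v.1)
      simp_rw [e1]
      rw [Finset.sum_coe_sort T (fun v => ∑ w ∈ (hAf v).toFinset, ∑ i, prF (a i) x w)]
      rw [← Finset.sum_biUnion]
      · have hset : {w : FinitePlace L | ∃ v ∈ T, Above v w} =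
            ((T.biUnion fun v => (hAf v).toFinset : Finset (FinitePlace L)) :
              Set (FinitePlace L)) := by
          ext w
          simp only [Finset.coe_biUnion, Set.Finite.coe_toFinset, Set.mem_iUnion, exists_prop]
          rfl
        have h3 := finsum_mem_coe_finset (fun w : FinitePlace L => ∑ i, prF (a i) x w)
          (T.biUnion fun v => (hAf v).toFinset)
        rw [← hset] at h3
        exact h3.symm
      · intro v _ v' _ hvv
        refine Finset.disjoint_left.2 fun w hw hw' => hvv ?_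
        have h1 := (hab v w).1 ((Set.Finite.mem_toFinset _).1 hw)
        have h2 := (hab v' w).1 ((Set.Finite.mem_toFinset _).1 hw')
        exact h1.symm.trans h2
  · -- logarithm of the height
    rw [hH, NumberField.mulHeight_eq hx]
    have hpI : ∀ w : InfinitePlace L, 0 < ⨆ j, w (x j) := by
      intro w
      obtain ⟨i, hi⟩ := Function.ne_iff.1 hx
      exact (w.pos_iff.2 hi).trans_le (U_ge (fun y => w y) x i)
    have h1 : (0 : ℝ) < ∏ v : InfinitePlace L, (⨆ i, v (x i)) ^ v.mult :=
      Finset.prod_pos fun w _ => pow_pos (hpI w) _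
    have hsf := U_supp hx
    have e2 : ∏ᶠ v : FinitePlace L, ⨆ i, v (x i) = ∏ v ∈ hsf.toFinset, ⨆ i, v (x i) :=
      finprod_eq_prod _ hsf
    have h2 : (0 : ℝ) < ∏ v ∈ hsf.toFinset, ⨆ i, v (x i) :=
      Finset.prod_pos fun w _ => U_pos hx w
    rw [e2, Real.log_mul h1.ne' h2.ne', Real.log_prod (fun w _ => (pow_pos (hpI w) _).ne'),
      Real.log_prod (fun w _ => (U_pos hx w).ne')]
    congr 1
    · exact Finset.sum_congr rfl fun w _ => Real.log_pow _ _
    · symm
      apply finsum_eq_sum_of_support_subset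
      intro w hw
      rw [Set.Finite.coe_toFinset]
      intro h3
      apply hw
      simp only at h3
      show Real.log (⨆ j, w (x j)) = 0
      rw [h3, Real.log_one]
  · rw [hH]
    exact Height.one_le_mulHeight x

end Pool.Agent.Helper67.Ru
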