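import Pool.Agent.Helper92.Ru.GoalsW

/-! Packet Proc (W6) of MP_d1d051_nt: the accumulator process. -/

set_option autoImplicit false

namespace Pool.Agent.Helper67.Ru

open Finset

/-- shift invariance of the sum over a period -/
lemma per_shift (f : ℕ → ℝ) (s : ℕ) (hp : ∀ u, f (u + s) = f u) (a : ℕ) :
    ∑ u ∈ range s, f (a + u) = ∑ u ∈ range s, f u := by
  induction a with
  | zero => simp
  | succ a ih =>
    have h1 := Finset.sum_range_succ (fun u => f (a + u)) s
    have h2 := Finset.sum_range_succ' (fun u => f (a + u)) s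
    have h3 : ∑ u ∈ range s, f (a + 1 + u) = ∑ u ∈ range s, f (a + (u + 1)) := by
      refine Finset.sum_congr rfl fun u _ => ?_
      rw [add_assoc, add_comm 1 u]
    rw [h3, ← ih]
    have h4 := hp a
    simp only [add_zero] at h2
    linarith

lemma per_mul (f : ℕ → ℝ) (s : ℕ) (hp : ∀ u, f (u + s) = f u) (n : ℕ) :
    ∑ u ∈ range (n * s), f u = n * ∑ u ∈ range s, f u := by
  induction n with
  | zero => simp
  | succ n ih =>
    rw [Nat.succ_mul, Finset.sum_range_add, ih, per_shift f s hp]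
    push_cast
    ring

/-- if `f ≤ g`, both periodic, `0 ≤ g`, the period sum of `f` is nonpositive and that of `g` at
most `C`, then every consecutive sum of `f` is at most `C`. -/
lemma per_bound (f g : ℕ → ℝ) (s : ℕ) (hs : 0 < s) (hpf : ∀ u, f (u + s) = f u)
    (hpg : ∀ u, g (u + s) = g u) (hfg : ∀ u, f u ≤ g u) (hg : ∀ u, 0 ≤ g u) (C : ℝ)
    (hf0 : ∑ u ∈ range s, f u ≤ 0) (hgC : ∑ u ∈ range s, g u ≤ C) (n : ℕ) :
    ∀ a, ∑ u ∈ range n, f (a + u) ≤ C := by
  induction n using Nat.strong_induction_on with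
  | _ n ih =>
    intro a
    by_cases h : n < s
    · calc ∑ u ∈ range n, f (a + u) ≤ ∑ u ∈ range n, g (a + u) :=
            Finset.sum_le_sum fun u _ => hfg _
        _ ≤ ∑ u ∈ range s, g (a + u) := by
            refine Finset.sum_le_sum_of_subset_of_nonneg ?_ fun u _ _ => hg _
            exact Finset.range_subset_range.2 h.le
        _ = ∑ u ∈ range s, g u := per_shift g s hpg a
        _ ≤ C := hgC
    · push Not at h
      obtain ⟨m, rfl⟩ := Nat.exists_eq_add_of_le h
      rw [Finset.sum_range_add, per_shift f s hpf a]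
      have h1 : ∑ u ∈ range m, f (a + (s + u)) = ∑ u ∈ range m, f ((a + s) + u) :=
        Finset.sum_congr rfl fun u _ => by rw [add_assoc]
      rw [h1]
      have h2 := ih m (by omega) (a + s)
      linarith

/-- the level which is subtracted -/
noncomputable def bet {q : ℕ} (M : ℕ) (z : Fin q → ℕ) : ℕ :=
  Nat.findGreatest (fun β => M + 1 ≤ (Finset.univ.filter (fun i => β ≤ z i)).card) (∑ i, z i)

lemma bet_spec {q : ℕ} (M : ℕ) (hq : M + 1 ≤ q) (z : Fin q → ℕ) :
    M + 1 ≤ (Finset.univ.filter (fun i => bet M z ≤ z i)).card := by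
  have h := Nat.findGreatest_spec
    (P := fun β => M + 1 ≤ (Finset.univ.filter (fun i => β ≤ z i)).card) (m := 0)
    (n := ∑ i, z i) (Nat.zero_le _) (by simpa using hq)
  exact h

lemma bet_max {q : ℕ} (M : ℕ) (z : Fin q → ℕ) :
    (Finset.univ.filter (fun i => bet M z + 1 ≤ z i)).card ≤ M := by
  by_cases h : bet M z + 1 ≤ ∑ i, z i
  · have h1 := Nat.findGreatest_is_greatest
      (P := fun β => M + 1 ≤ (Finset.univ.filter (fun i => β ≤ z i)).card)
      (n := ∑ i, z i) (k := bet M z + 1) (Nat.lt_succ_self _) h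
    simp only [not_le] at h1
    omega
  · have h2 : (Finset.univ.filter (fun i => bet M z + 1 ≤ z i)) = ∅ := by
      refine Finset.filter_eq_empty_iff.2 fun i _ h3 => h ?_
      exact h3.trans (Finset.single_le_sum (f := z) (fun _ _ => Nat.zero_le _) (Finset.mem_univ i))
    rw [h2]
    simp

/-- the process -/
noncomputable def rho {q : ℕ} (M : ℕ) (mu : ℕ → Fin q → ℕ) : ℕ → Fin q → ℕ
  | 0 => fun _ => 0
  | t + 1 => fun i => rho M mu t i + mu t i - bet M (fun j => rho M mu t j + mu t j)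

/-- the subtracted amounts -/
noncomputable def bt {q : ℕ} (M : ℕ) (mu : ℕ → Fin q → ℕ) (t : ℕ) : ℕ :=
  bet M (fun j => rho M mu t j + mu t j)

lemma rho_succ {q : ℕ} (M : ℕ) (mu : ℕ → Fin q → ℕ) (t : ℕ) (i : Fin q) :
    rho M mu (t + 1) i = rho M mu t i + mu t i - bt M mu t := rfl

lemma rho_supp {q : ℕ} (M : ℕ) (mu : ℕ → Fin q → ℕ) (t : ℕ) :
    (Finset.univ.filter (fun i => rho M mu t i ≠ 0)).card ≤ M := by
  cases t with
  | zero => simp [rho]
  | succ t =>
    refine le_trans (Finset.card_le_card ?_) (bet_max M (fun j => rho M mu t j + mu t j))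
    intro i hi
    simp only [Finset.mem_filter, Finset.mem_univ, true_and] at hi ⊢
    have h : rho M mu (t + 1) i = rho M mu t i + mu t i - bet M (fun j => rho M mu t j + mu t j) :=
      rfl
    omega

lemma step {q : ℕ} (M : ℕ) (mu : ℕ → Fin q → ℕ)
    (hmu : ∀ t, (Finset.univ.filter (fun i => mu t i ≠ 0)).card ≤ M) (t : ℕ) :
    ∑ i, rho M mu t i + ∑ i, mu t i ≤ ∑ i, rho M mu (t + 1) i + 2 * M * bt M mu t := by
  classical
  have h1 : ∀ i, rho M mu t i + mu t i ≤ rho M mu (t + 1) i +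
      (if i ∈ (Finset.univ.filter (fun i => rho M mu t i ≠ 0)) ∪
        (Finset.univ.filter (fun i => mu t i ≠ 0)) then bt M mu t else 0) := by
    intro i
    rw [rho_succ]
    split_ifs with h
    · omega
    · simp only [Finset.mem_union, Finset.mem_filter, Finset.mem_univ, true_and, not_or,
        not_not] at h
      omega
  have h2 := Finset.sum_le_sum fun i (_ : i ∈ (Finset.univ : Finset (Fin q))) => h1 i
  rw [Finset.sum_add_distrib, Finset.sum_add_distrib, Finset.sum_ite_mem, Finset.univ_inter,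
    Finset.sum_const, smul_eq_mul] at h2
  have h3 := Finset.card_union_le (Finset.univ.filter (fun i => rho M mu t i ≠ 0))
    (Finset.univ.filter (fun i => mu t i ≠ 0))
  have h4 := rho_supp M mu t
  have h5 := hmu t
  have h6 : ((Finset.univ.filter (fun i => rho M mu t i ≠ 0)) ∪
        (Finset.univ.filter (fun i => mu t i ≠ 0))).card * bt M mu t ≤ 2 * M * bt M mu t :=
    Nat.mul_le_mul_right _ (by omega)
  omega

lemma steps {q : ℕ} (M : ℕ) (mu : ℕ → Fin q → ℕ)
    (hmu : ∀ t, (Finset.univ.filter (fun i => mu t i ≠ 0)).card ≤ M) (a n : ℕ) :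
    ∑ i, rho M mu a i + ∑ u ∈ range n, ∑ i, mu (a + u) i ≤
      ∑ i, rho M mu (a + n) i + 2 * M * ∑ u ∈ range n, bt M mu (a + u) := by
  induction n with
  | zero => simp
  | succ n ih =>
    rw [Finset.sum_range_succ, Finset.sum_range_succ, Nat.mul_add]
    have h := step M mu hmu (a + n)
    have h2 : a + (n + 1) = a + n + 1 := by ring
    rw [h2]
    omega

lemma notrunc {q : ℕ} (M : ℕ) (mu : ℕ → Fin q → ℕ) (i : Fin q) (a n : ℕ)
    (h0 : rho M mu a i = 0) (hpos : ∀ u, u < n → rho M mu (a + u + 1) i ≠ 0) :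
    rho M mu (a + n) i + ∑ u ∈ range n, bt M mu (a + u) = ∑ u ∈ range n, mu (a + u) i := by
  induction n with
  | zero => simp [h0]
  | succ n ih =>
    have h1 := ih fun u hu => hpos u (by omega)
    have h2 := hpos n (by omega)
    have h3 := rho_succ M mu (a + n) i
    rw [Finset.sum_range_succ, Finset.sum_range_succ]
    have h4 : a + (n + 1) = a + n + 1 := by ring
    rw [h4]
    omega

/-- the last zero -/
lemma last_zero {q : ℕ} (M : ℕ) (mu : ℕ → Fin q → ℕ) (i : Fin q) (T : ℕ) :
    ∃ a n, a + n = T ∧ rho M mu a i = 0 ∧ ∀ u, u < n → rho M mu (a + u + 1) i ≠ 0 := by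
  induction T with
  | zero => exact ⟨0, 0, rfl, rfl, fun u hu => by omega⟩
  | succ T ih =>
    obtain ⟨a, n, h1, h2, h3⟩ := ih
    by_cases h : rho M mu (T + 1) i = 0
    · exact ⟨T + 1, 0, rfl, h, fun u hu => by omega⟩
    · refine ⟨a, n + 1, by omega, h2, fun u hu => ?_⟩
      by_cases h4 : u < n
      · exact h3 u h4
      · have h5 : u = n := by omega
        subst h5
        rw [h1]
        exact h

/-- the sum over the coordinates is at most `M` times the maximum -/
lemma rho_sum_le {q : ℕ} (M : ℕ) (mu : ℕ → Fin q → ℕ) (T c : ℕ)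
    (h : ∀ i, rho M mu T i ≤ c) : ∑ i, rho M mu T i ≤ M * c := by
  classical
  have h1 : ∀ i, rho M mu T i ≤
      (if i ∈ (Finset.univ.filter (fun i => rho M mu T i ≠ 0)) then c else 0) := by
    intro i
    split_ifs with h2
    · exact h i
    · simp only [Finset.mem_filter, Finset.mem_univ, true_and, not_not] at h2
      omega
  have h2 := Finset.sum_le_sum fun i (_ : i ∈ (Finset.univ : Finset (Fin q))) => h1 i
  rw [Finset.sum_ite_mem, Finset.univ_inter, Finset.sum_const, smul_eq_mul] at h2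
  exact h2.trans (Nat.mul_le_mul_right _ (rho_supp M mu T))

theorem proc : Pool.Agent.Helper92.Ru.Proc := by
  intro q M L s lam K Φ hM hK hΦ0 hΦz hsub hext hsupp hL hD
  have hs : 0 < s := by
    rcases Nat.eq_zero_or_pos s with h | h
    · subst h
      simp at hD
    · exact h
  have hswap : ∑ v, ∑ i, lam v i = ∑ i, ∑ v, lam v i := Finset.sum_comm
  have hq : M + 1 ≤ q := by
    by_contra hq
    push Not at hq
    have h1 : ∑ i, ∑ v, lam v i ≤ ∑ _i : Fin q, L := Finset.sum_le_sum fun i _ => hL i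
    rw [Finset.sum_const, Finset.card_univ, Fintype.card_fin, smul_eq_mul] at h1
    have h2 : q * L ≤ M * L := Nat.mul_le_mul_right _ (by omega)
    have h3 : 2 * M * L = M * L + M * L := by ring
    omega
  -- the periodic extension
  let mu : ℕ → Fin q → ℕ := fun t => lam ⟨t % s, Nat.mod_lt _ hs⟩
  have hmuper : ∀ t, mu (t + s) = mu t := by
    intro t
    have : (⟨(t + s) % s, Nat.mod_lt _ hs⟩ : Fin s) = ⟨t % s, Nat.mod_lt _ hs⟩ := by
      apply Fin.ext
      simp
    show lam _ = lam _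
    rw [this]
  have hmu : ∀ t, (Finset.univ.filter (fun i => mu t i ≠ 0)).card ≤ M := fun t => hsupp _
  have hsumper : ∀ g : (Fin q → ℕ) → ℝ, ∑ u ∈ range s, g (mu u) = ∑ v, g (lam v) := by
    intro g
    rw [Finset.sum_range]
    refine Finset.sum_congr rfl fun v _ => ?_
    have : (⟨(v : ℕ) % s, Nat.mod_lt _ hs⟩ : Fin s) = v := by
      apply Fin.ext
      exact Nat.mod_eq_of_lt v.2
    show g (lam _) = g (lam _)
    rw [this]
  have hMr : (0 : ℝ) < M := by exact_mod_cast hM
  have hDr : 2 * (M : ℝ) * L + 1 ≤ ∑ v, ((∑ i, lam v i : ℕ) : ℝ) := by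
    have : ((2 * M * L + 1 : ℕ) : ℝ) ≤ ((∑ v, ∑ i, lam v i : ℕ) : ℝ) := by exact_mod_cast hD
    push_cast at this ⊢
    exact this
  -- the bound for `rho`
  have hrho : ∀ T i, rho M mu T i ≤ 2 * L := by
    intro T
    obtain ⟨i, -, hi⟩ := Finset.exists_max_image (Finset.univ : Finset (Fin q))
      (fun i => rho M mu T i) ⟨⟨0, by omega⟩, Finset.mem_univ _⟩
    suffices h : rho M mu T i ≤ 2 * L from fun j => (hi j (Finset.mem_univ j)).trans h
    obtain ⟨a, n, hT, ha, hn⟩ := last_zero M mu i T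
    have h1 := notrunc M mu i a n ha hn
    have h2 := steps M mu hmu a n
    have h3 := rho_sum_le M mu T (rho M mu T i) fun j => hi j (Finset.mem_univ j)
    rw [hT] at h1 h2
    -- real versions
    have h4 : (rho M mu T i : ℝ) + ∑ u ∈ range n, (bt M mu (a + u) : ℝ) =
        ∑ u ∈ range n, (mu (a + u) i : ℝ) := by exact_mod_cast h1
    have h5 : ∑ u ∈ range n, ((∑ i, mu (a + u) i : ℕ) : ℝ) ≤
        ((∑ i, rho M mu T i : ℕ) : ℝ) + 2 * M * ∑ u ∈ range n, (bt M mu (a + u) : ℝ) := by
      have : ∑ u ∈ range n, ∑ i, mu (a + u) i ≤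
        ∑ i, rho M mu T i + 2 * M * ∑ u ∈ range n, bt M mu (a + u) := by omega
      exact_mod_cast this
    have h6 : ((∑ i, rho M mu T i : ℕ) : ℝ) ≤ M * (rho M mu T i : ℝ) := by exact_mod_cast h3
    have h7 := per_bound
      (fun u => 2 * M * (mu u i : ℝ) - ((∑ j, mu u j : ℕ) : ℝ)) (fun u => 2 * M * (mu u i : ℝ)) s hs
      (fun u => by simp only [hmuper]) (fun u => by simp only [hmuper])
      (fun u => by
        have : (0 : ℝ) ≤ ((∑ j, mu u j : ℕ) : ℝ) := Nat.cast_nonneg _
        linarith)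
      (fun u => by positivity) (2 * M * L)
      (by
        have e := hsumper (fun z => 2 * M * (z i : ℝ) - ((∑ j, z j : ℕ) : ℝ))
        rw [e, Finset.sum_sub_distrib, ← Finset.mul_sum]
        have : (∑ v, (lam v i : ℝ)) ≤ L := by exact_mod_cast hL i
        have := mul_le_mul_of_nonneg_left this (by positivity : (0 : ℝ) ≤ 2 * M)
        linarith)
      (by
        have e := hsumper (fun z => 2 * M * (z i : ℝ))
        rw [e, ← Finset.mul_sum]
        have : (∑ v, (lam v i : ℝ)) ≤ L := by exact_mod_cast hL i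
        exact mul_le_mul_of_nonneg_left this (by positivity : (0 : ℝ) ≤ 2 * M)) n a
    rw [Finset.sum_sub_distrib, ← Finset.mul_sum] at h7
    have h8 : (M : ℝ) * (rho M mu T i : ℝ) ≤ M * (2 * L) := by
      have e : 2 * (M : ℝ) * ∑ u ∈ range n, (mu (a + u) i : ℝ) =
          2 * M * (rho M mu T i : ℝ) + 2 * M * ∑ u ∈ range n, (bt M mu (a + u) : ℝ) := by
        rw [← h4]; ring
      rw [e] at h7
      linarith
    have h9 := le_of_mul_le_mul_left h8 hMr
    exact_mod_cast h9
  -- the potential inequality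
  have hpot : ∀ T, K * ∑ u ∈ range T, (bt M mu u : ℝ) + Φ (rho M mu T) ≤
      ∑ u ∈ range T, Φ (mu u) := by
    intro T
    induction T with
    | zero =>
      have : rho M mu 0 = 0 := rfl
      simp [this, hΦz]
    | succ T ih =>
      rw [Finset.sum_range_succ, Finset.sum_range_succ]
      have h1 := hsub (rho M mu T) (mu T)
      have h2 := hext (fun j => rho M mu T j + mu T j) (bt M mu T) (bet_spec M hq _)
      have h3 : (fun i => rho M mu T i + mu T i - bt M mu T) = rho M mu (T + 1) := rfl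
      rw [h3] at h2
      rw [mul_add]
      linarith
  -- choose the number of periods
  set n : ℕ := 4 * M * L + 1 with hn
  have hp := hpot (n * s)
  have e1 := per_mul (fun u => Φ (mu u)) s (fun u => by simp only [hmuper]) n
  have e2 := hsumper Φ
  rw [e1, e2] at hp
  have h2 := steps M mu hmu 0 (n * s)
  have h3 := rho_sum_le M mu (n * s) (2 * L) (hrho (n * s))
  simp only [zero_add] at h2
  have h4 : ∑ u ∈ range (n * s), ((∑ i, mu u i : ℕ) : ℝ) ≤
      M * (2 * L) + 2 * M * ∑ u ∈ range (n * s), (bt M mu u : ℝ) := by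
    have : ∑ u ∈ range (n * s), ∑ i, mu u i ≤
        M * (2 * L) + 2 * M * ∑ u ∈ range (n * s), bt M mu u := by omega
    exact_mod_cast this
  have e3 := per_mul (fun u => ((∑ i, mu u i : ℕ) : ℝ)) s (fun u => by simp only [hmuper]) n
  have e4 := hsumper (fun z => ((∑ i, z i : ℕ) : ℝ))
  rw [e3, e4] at h4
  have hnr : (0 : ℝ) < n := by exact_mod_cast Nat.succ_pos _
  have hnM : (4 * M * L : ℝ) ≤ n := by
    have : ((4 * M * L + 1 : ℕ) : ℝ) = (n : ℝ) := by rw [hn]
    push_cast at this
    linarith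
  set G : ℝ := ∑ u ∈ range (n * s), (bt M mu u : ℝ) with hG
  have h5 : (n : ℝ) * (2 * M * L + 1) ≤ M * (2 * L) + 2 * M * G :=
    (mul_le_mul_of_nonneg_left hDr hnr.le).trans h4
  have h6 : (n : ℝ) * ((L : ℝ) + 1 / (4 * M)) ≤ G := by
    have e : (n : ℝ) * ((L : ℝ) + 1 / (4 * M)) = (n * (4 * M * L + 1)) / (4 * M) := by
      field_simp
    rw [e, div_le_iff₀ (by positivity)]
    nlinarith
  have h7 : K * ((n : ℝ) * ((L : ℝ) + 1 / (4 * M))) ≤ K * G := mul_le_mul_of_nonneg_left h6 hK
  have h8 := hΦ0 (rho M mu (n * s))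
  have h9 : (n : ℝ) * (((L : ℝ) + 1 / (4 * M)) * K) ≤ n * ∑ v, Φ (lam v) := by
    calc (n : ℝ) * (((L : ℝ) + 1 / (4 * M)) * K) = K * ((n : ℝ) * ((L : ℝ) + 1 / (4 * M))) := by ring
      _ ≤ K * G := h7
      _ ≤ n * ∑ v, Φ (lam v) := by linarith
  exact le_of_mul_le_mul_left h9 hnr

end Pool.Agent.Helper67.Ru
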